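import Pool.Agent.H11.SG.Det

/-!
# The adjugate of an alternating matrix of odd size
-/

set_option autoImplicit false

namespace Pool.Agent.H11.SG

open Matrix

section

variable {O : Type} [CommRing O] [IsDomain O] {k t r : ℕ} {C : Matrix (Fin k) (Fin k) O}
  {g : Fin t → O}

/-- the coordinates as a function on `(Fin 2 × Fin t) ⊕ Fin 1` -/
def cd1 (E : (Fin k → O) ≃ₗ[O] (Fin t → O × O) × (Fin 1 → O)) :
    (Fin k → O) ≃ₗ[O] ((Fin 2 × Fin t) ⊕ Fin 1 → O) where
  toFun x := Sum.elim (fun p => if p.1 = 0 then ((E x).1 p.2).1 else ((E x).1 p.2).2)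
    (fun i => (E x).2 i)
  map_add' x y := by
    funext p
    rcases p with ⟨a, b⟩ | i
    · by_cases h : a = 0 <;> simp [h]
    · simp
  map_smul' c x := by
    funext p
    rcases p with ⟨a, b⟩ | i
    · by_cases h : a = 0 <;> simp [h]
    · simp
  invFun v := E.symm (fun i => (v (Sum.inl (0, i)), v (Sum.inl (1, i))), fun i => v (Sum.inr i))
  left_inv x := by
    apply E.injective
    rw [E.apply_symm_apply]
    refine Prod.ext (funext fun i => Prod.ext ?_ ?_) (funext fun i => ?_)
    · simp
    · simp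
    · simp
  right_inv v := by
    funext p
    rcases p with ⟨a, b⟩ | i
    · show (if a = 0 then _ else _) = _
      rw [E.apply_symm_apply]
      fin_cases a <;> simp
    · show (E _).2 i = _
      rw [E.apply_symm_apply]

/-- the adjugate of a matrix with a zero row and a zero column -/
lemma adj_zero {n : Type} [Fintype n] [DecidableEq n] (G : Matrix n n O) (a : n)
    (hr : ∀ j, G a j = 0) (hc : ∀ i, G i a = 0) (i j : n) :
    G.adjugate i j = if i = a ∧ j = a then (G.updateRow a (Pi.single a 1)).det else 0 := by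
  rw [adjugate_apply]
  by_cases hj : j = a
  · subst hj
    by_cases hi : i = j
    · subst hi
      rw [if_pos ⟨rfl, rfl⟩]
    · rw [if_neg (fun h => hi h.1)]
      apply det_eq_zero_of_column_eq_zero j
      intro m
      by_cases hm : m = j
      · subst hm
        rw [updateRow_self, Pi.single_eq_of_ne (Ne.symm hi)]
      · rw [updateRow_ne hm, hc]
  · rw [if_neg (fun h => hj h.2)]
    apply det_eq_zero_of_row_eq_zero a
    intro m
    rw [updateRow_ne (Ne.symm hj), hr]

theorem adj1 {E : (Fin k → O) ≃ₗ[O] (Fin t → O × O) × (Fin 1 → O)}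
    (hE : ∀ x y, x ⬝ᵥ (C *ᵥ y) =
      ∑ i, g i * (((E x).1 i).1 * ((E y).1 i).2 - ((E x).1 i).2 * ((E y).1 i).1)) :
    ∃ u : O, IsUnit u ∧ ∀ i j, C.adjugate i j =
      (u * ∏ i, g i) ^ 2 * (E.symm (0, fun _ => 1) i * E.symm (0, fun _ => 1) j) := by
  classical
  have hcard : Fintype.card ((Fin 2 × Fin t) ⊕ Fin 1) = Fintype.card (Fin k) := by
    have h := (cd1 E).finrank_eq
    rw [Module.finrank_fintype_fun_eq_card, Module.finrank_fintype_fun_eq_card] at h
    exact h.symm
  obtain ⟨e⟩ : Nonempty ((Fin 2 × Fin t) ⊕ Fin 1 ≃ Fin k) := Fintype.card_eq.1 hcard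
  let L : (Fin k → O) ≃ₗ[O] (Fin k → O) := (cd1 E).trans (LinearEquiv.funCongrLeft O O e.symm)
  have hL : ∀ x a, L x a = cd1 E x (e.symm a) := fun x a => rfl
  obtain ⟨G, hG⟩ : ∃ G : Matrix ((Fin 2 × Fin t) ⊕ Fin 1) ((Fin 2 × Fin t) ⊕ Fin 1) O,
    G = fromBlocks (blockDiagonal (fun i => !![0, g i; -g i, 0])) 0 0 0 := ⟨_, rfl⟩
  obtain ⟨U, hU⟩ : ∃ U, U = LinearMap.toMatrix' L.toLinearMap := ⟨_, rfl⟩
  have hUx : ∀ x, U *ᵥ x = L x := by
    intro x
    rw [hU, ← Matrix.toLin'_apply, Matrix.toLin'_toMatrix']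
    rfl
  have hmain : C = Uᵀ * G.submatrix e.symm e.symm * U := by
    apply Matrix.toBilin'.injective
    refine LinearMap.ext fun x => LinearMap.ext fun y => ?_
    rw [Matrix.toBilin'_apply', Matrix.toBilin'_apply', hE, ← mulVec_mulVec, ← mulVec_mulVec, hUx,
      dotProduct_mulVec, vecMul_transpose, hUx]
    have h1 : L x ⬝ᵥ (G.submatrix e.symm e.symm *ᵥ L y) =
        ∑ p : (Fin 2 × Fin t) ⊕ Fin 1, ∑ q : (Fin 2 × Fin t) ⊕ Fin 1,
          cd1 E x p * (G p q * cd1 E y q) := by
      rw [dotProduct, ← e.sum_comp]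
      refine Finset.sum_congr rfl fun p _ => ?_
      rw [mulVec, dotProduct, Finset.mul_sum, ← e.sum_comp]
      refine Finset.sum_congr rfl fun q _ => ?_
      rw [hL, hL, submatrix_apply, e.symm_apply_apply, e.symm_apply_apply]
    have h0 : ∀ (p : Fin 2 × Fin t) (q : Fin 1), G (Sum.inl p) (Sum.inr q) = 0 := by
      intro p q
      rw [hG, fromBlocks_apply₁₂]
      rfl
    have h0' : ∀ (p : Fin 2 × Fin t) (q : Fin 1), G (Sum.inr q) (Sum.inl p) = 0 := by
      intro p q
      rw [hG, fromBlocks_apply₂₁]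
      rfl
    have h0'' : ∀ (p q : Fin 1), G (Sum.inr q) (Sum.inr p) = 0 := by
      intro p q
      rw [hG, fromBlocks_apply₂₂]
      rfl
    rw [h1]
    simp only [Fintype.sum_sum_type, h0, h0', h0'', zero_mul, mul_zero, Finset.sum_const_zero,
      add_zero]
    simp only [Fintype.sum_prod_type, Fin.sum_univ_two]
    rw [← Finset.sum_add_distrib]
    refine Finset.sum_congr rfl fun i _ => ?_
    have h2 : ∀ a b : Fin 2, ∑ j : Fin t, cd1 E x (Sum.inl (a, i)) *
        (G (Sum.inl (a, i)) (Sum.inl (b, j)) * cd1 E y (Sum.inl (b, j))) =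
        cd1 E x (Sum.inl (a, i)) * ((!![0, g i; -g i, 0] : Matrix _ _ O) a b *
          cd1 E y (Sum.inl (b, i))) := by
      intro a b
      rw [Finset.sum_eq_single i]
      · rw [hG, fromBlocks_apply₁₁, blockDiagonal_apply_eq]
      · intro j _ hj
        rw [hG, fromBlocks_apply₁₁, blockDiagonal_apply_ne _ _ _ (Ne.symm hj), zero_mul, mul_zero]
      · intro h
        exact absurd (Finset.mem_univ _) h
    rw [h2, h2, h2, h2]
    have h3 : ∀ x, cd1 E x (Sum.inl (0, i)) = ((E x).1 i).1 := fun x => rfl
    have h4 : ∀ x, cd1 E x (Sum.inl (1, i)) = ((E x).1 i).2 := fun x => rfl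
    rw [h3, h3, h4, h4]
    simp
    ring
  obtain ⟨a₀, ha₀⟩ : ∃ a₀, a₀ = e (Sum.inr 0) := ⟨_, rfl⟩
  obtain ⟨h, hh⟩ : ∃ h, h = E.symm (0, fun _ => 1) := ⟨_, rfl⟩
  have hUh : U *ᵥ h = Pi.single a₀ 1 := by
    funext a
    obtain ⟨p, rfl⟩ := e.surjective a
    rw [hUx, hL, e.symm_apply_apply, ha₀, Pi.single_apply]
    rcases p with ⟨a, b⟩ | i
    · rw [if_neg (fun h => by simpa using e.injective h)]
      show (if a = 0 then ((E h).1 b).1 else ((E h).1 b).2) = 0
      rw [hh, E.apply_symm_apply]
      simp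
    · rw [if_pos (by rw [Subsingleton.elim i 0])]
      show (E h).2 i = 1
      rw [hh, E.apply_symm_apply]
  have hadjU : U.adjugate *ᵥ Pi.single a₀ 1 = U.det • h := by
    rw [← hUh, mulVec_mulVec, adjugate_mul, smul_mulVec, one_mulVec]
  have hcol : ∀ i, U.adjugate i a₀ = U.det * h i := by
    intro i
    have h1 := congrFun hadjU i
    rw [mulVec_single_one] at h1
    exact h1
  have hGadj : ∀ i j, (G.submatrix e.symm e.symm).adjugate i j =
      if i = a₀ ∧ j = a₀ then (∏ i, g i) ^ 2 else 0 := by
    intro i j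
    rw [adj_zero (G.submatrix e.symm e.symm) a₀ ?_ ?_ i j]
    · congr 1
      have h1 : (G.submatrix e.symm e.symm).updateRow a₀ (Pi.single a₀ 1) =
          (fromBlocks (blockDiagonal (fun i => !![0, g i; -g i, 0])) 0 0 1 :
            Matrix ((Fin 2 × Fin t) ⊕ Fin 1) ((Fin 2 × Fin t) ⊕ Fin 1) O).submatrix
            e.symm e.symm := by
        ext a b
        obtain ⟨p, rfl⟩ := e.surjective a
        obtain ⟨q, rfl⟩ := e.surjective b
        rw [submatrix_apply, e.symm_apply_apply, e.symm_apply_apply]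
        rcases p with p | p
        · rw [updateRow_ne (fun h => by rw [ha₀] at h; simpa using e.injective h), submatrix_apply,
            e.symm_apply_apply, e.symm_apply_apply, hG]
          rcases q with q | q
          · rfl
          · rfl
        · have e1 : e (Sum.inr p) = a₀ := by rw [ha₀, Subsingleton.elim p 0]
          rw [e1, updateRow_self, ha₀, Pi.single_apply]
          rcases q with q | q
          · rw [if_neg (fun h => by simpa using e.injective h)]
            rfl
          · rw [if_pos (by rw [Subsingleton.elim q 0]), fromBlocks_apply₂₂,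
              Subsingleton.elim p q, one_apply_eq]
      rw [h1, det_submatrix_equiv_self, det_fromBlocks_zero₂₁, det_one, mul_one,
        det_blockDiagonal, ← Finset.prod_pow]
      refine Finset.prod_congr rfl fun i _ => ?_
      rw [det_fin_two_of]
      ring
    · intro b
      rw [submatrix_apply, ha₀, e.symm_apply_apply, hG]
      rcases e.symm b with q | q
      · rfl
      · rfl
    · intro b
      rw [submatrix_apply, ha₀, e.symm_apply_apply, hG]
      rcases e.symm b with q | q
      · rfl
      · rfl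
  refine ⟨U.det, ?_, ?_⟩
  · rw [hU, LinearMap.det_toMatrix']
    exact LinearEquiv.isUnit_det' L
  · intro i j
    rw [hmain, adjugate_mul_distrib, adjugate_mul_distrib, ← adjugate_transpose, ← hh]
    rw [mul_apply, Finset.sum_eq_single a₀]
    · rw [hcol, mul_apply, Finset.sum_eq_single a₀]
      · rw [hGadj, if_pos ⟨rfl, rfl⟩, transpose_apply, hcol]
        ring
      · intro b _ hb
        rw [hGadj, if_neg (fun h => hb h.2), zero_mul]
      · intro h
        exact absurd (Finset.mem_univ _) h
    · intro b _ hb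
      rw [mul_apply]
      have : ∀ c, (G.submatrix e.symm e.symm).adjugate b c = 0 := fun c => by
        rw [hGadj, if_neg (fun h => hb h.1)]
      simp [this]
    · intro h
      exact absurd (Finset.mem_univ _) h

theorem adj2 {E : (Fin k → O) ≃ₗ[O] (Fin t → O × O) × (Fin r → O)}
    (hE : ∀ x y, x ⬝ᵥ (C *ᵥ y) =
      ∑ i, g i * (((E x).1 i).1 * ((E y).1 i).2 - ((E x).1 i).2 * ((E y).1 i).1)) (hr : 2 ≤ r)
    (i j : Fin k) : C.adjugate i j = 0 := by
  have hker : ∀ v : Fin r → O, C *ᵥ E.symm (0, v) = 0 := by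
    intro v
    funext i
    have h2 := hE (Pi.single i 1) (E.symm (0, v))
    rw [single_one_dotProduct] at h2
    rw [h2, E.apply_symm_apply]
    simp
  obtain ⟨v, hv, hvi⟩ : ∃ v : Fin r → O, v ≠ 0 ∧ E.symm (0, v) i = 0 := by
    obtain ⟨a, ha⟩ : ∃ a : Fin r, a = ⟨0, by omega⟩ := ⟨_, rfl⟩
    obtain ⟨b, hb⟩ : ∃ b : Fin r, b = ⟨1, by omega⟩ := ⟨_, rfl⟩
    have hab : a ≠ b := by
      rw [ha, hb]
      simp
    by_cases h : E.symm (0, Pi.single a 1) i = 0
    · refine ⟨Pi.single a 1, fun h' => ?_, h⟩
      have := congrFun h' a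
      rw [Pi.single_eq_same] at this
      exact one_ne_zero this
    · refine ⟨E.symm (0, Pi.single a 1) i • Pi.single b 1 -
        E.symm (0, Pi.single b 1) i • Pi.single a 1, fun h' => h ?_, ?_⟩
      · have := congrFun h' b
        rw [Pi.sub_apply, Pi.smul_apply, Pi.smul_apply, Pi.single_eq_same,
          Pi.single_eq_of_ne hab.symm, smul_zero, sub_zero, smul_eq_mul, mul_one] at this
        exact this
      · have h1 : ∀ (x y : O) (v w : Fin r → O), E.symm (0, x • v - y • w) =
            x • E.symm (0, v) - y • E.symm (0, w) := by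
          intro x y v w
          rw [← map_smul, ← map_smul, ← map_sub]
          congr 1
          simp
        rw [h1, Pi.sub_apply, Pi.smul_apply, Pi.smul_apply, smul_eq_mul, smul_eq_mul]
        ring
  rw [adjugate_apply, ← Matrix.exists_mulVec_eq_zero_iff]
  refine ⟨E.symm (0, v), fun h => hv ?_, ?_⟩
  · have h1 := congrArg E h
    rw [E.apply_symm_apply, map_zero] at h1
    exact congrArg Prod.snd h1
  · funext m
    by_cases hm : m = j
    · subst hm
      show (C.updateRow m (Pi.single i 1)) m ⬝ᵥ _ = 0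
      rw [updateRow_self, single_one_dotProduct, hvi]
    · show (C.updateRow j (Pi.single i 1)) m ⬝ᵥ _ = 0
      rw [updateRow_ne hm]
      exact congrFun (hker v) m

end

/-- a vector in the kernel of an alternating matrix of odd size -/
theorem exists_vec (A : Type) [CommRing A] (k : ℕ) (hk : Odd k) (C : Matrix (Fin k) (Fin k) A)
    (hC : Cᵀ = -C) (hd : ∀ i, C i i = 0) :
    ∃ p : Fin k → A, (∀ i j, p i * p j = C.adjugate i j) ∧ C *ᵥ p = 0 := by
  classical
  have hsk : ∀ i j, C j i = -C i j := fun i j => congrFun (congrFun hC i) j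
  let R := MvPolynomial (Fin k × Fin k) ℤ
  let X : Matrix (Fin k) (Fin k) R := fun i j => if i < j then MvPolynomial.X (i, j) else
    if j < i then -MvPolynomial.X (j, i) else 0
  have hX : ∀ i j, X i j = if i < j then MvPolynomial.X (i, j) else
    if j < i then -MvPolynomial.X (j, i) else 0 := fun i j => rfl
  let F := FractionRing R
  have hXt : (X.map (algebraMap R F))ᵀ = -(X.map (algebraMap R F)) := by
    ext i j
    rw [transpose_apply, neg_apply, map_apply, map_apply, ← map_neg]
    congr 1
    rw [hX, hX]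
    rcases lt_trichotomy i j with h | h | h
    · rw [if_neg (not_lt.2 h.le), if_pos h, if_pos h]
    · subst h
      simp
    · rw [if_pos h, if_neg (not_lt.2 h.le), if_pos h, neg_neg]
  have hXd : ∀ i, (X.map (algebraMap R F)) i i = 0 := by
    intro i
    rw [map_apply, hX]
    simp
  obtain ⟨t, r, g, E, -, hE⟩ := sNF F k _ hXt hXd
  have hadj : ∀ i j, (X.map (algebraMap R F)).adjugate i j = algebraMap R F (X.adjugate i j) := by
    intro i j
    have := RingHom.map_adjugate (algebraMap R F) X
    exact (congrFun (congrFun this i) j).symm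
  obtain ⟨q, hq, hq0⟩ : ∃ q : Fin k → F, (∀ i j, q i * q j = (X.map (algebraMap R F)).adjugate i j) ∧
      (X.map (algebraMap R F)) *ᵥ q = 0 := by
    by_cases hr : 2 ≤ r
    · refine ⟨0, fun i j => ?_, mulVec_zero _⟩
      rw [adj2 hE hr i j]
      simp
    · have hrk : r + 2 * t = k := by
        have h := E.finrank_eq
        rw [Module.finrank_prod, Module.finrank_fin_fun, Module.finrank_fin_fun,
          Module.finrank_pi_fintype] at h
        simp at h
        omega
      have hr1 : r = 1 := by
        obtain ⟨m, hm⟩ := hk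
        omega
      subst hr1
      obtain ⟨u, -, hu⟩ := adj1 hE
      refine ⟨(u * ∏ i, g i) • E.symm (0, fun _ => 1), fun i j => ?_, ?_⟩
      · rw [hu, Pi.smul_apply, Pi.smul_apply, smul_eq_mul, smul_eq_mul]
        ring
      · rw [mulVec_smul]
        have h3 : (X.map (algebraMap R F)) *ᵥ E.symm (0, fun _ => 1) = 0 := by
          funext i
          have h2 := hE (Pi.single i 1) (E.symm (0, fun _ => 1))
          rw [single_one_dotProduct] at h2
          rw [h2, E.apply_symm_apply]
          simp
        rw [h3, smul_zero]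
  have hint : ∀ i, ∃ p : R, algebraMap R F p = q i := fun i =>
    IsIntegrallyClosed.exists_algebraMap_eq_of_isIntegral_pow (n := 2) (by norm_num)
      (by rw [sq, hq, hadj]; exact isIntegral_algebraMap)
  choose p hp using hint
  have hinj := IsFractionRing.injective R F
  have hp1 : ∀ i j, p i * p j = X.adjugate i j := by
    intro i j
    apply hinj
    rw [map_mul, hp, hp, hq, hadj]
  have hp2 : X *ᵥ p = 0 := by
    funext i
    apply hinj
    have := congrFun hq0 i
    rw [Pi.zero_apply] at this
    rw [Pi.zero_apply, map_zero, ← this]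
    simp only [mulVec, dotProduct, map_sum, map_mul, hp, map_apply]
  let f : R →+* A := MvPolynomial.eval₂Hom (Int.castRingHom A) (fun q => C q.1 q.2)
  have hfX : f.mapMatrix X = C := by
    ext i j
    rw [RingHom.mapMatrix_apply, map_apply, hX]
    rcases lt_trichotomy i j with h | h | h
    · rw [if_pos h]
      exact MvPolynomial.eval₂Hom_X' _ _ _
    · subst h
      rw [if_neg (lt_irrefl _), if_neg (lt_irrefl _), map_zero, hd]
    · rw [if_neg (not_lt.2 h.le), if_pos h, map_neg, hsk j i]
      congr 1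
      exact MvPolynomial.eval₂Hom_X' _ _ _
  refine ⟨fun i => f (p i), fun i j => ?_, ?_⟩
  · rw [← map_mul, hp1]
    have := RingHom.map_adjugate f X
    rw [hfX] at this
    exact congrFun (congrFun this i) j
  · funext i
    have h1 := congrArg f (congrFun hp2 i)
    rw [Pi.zero_apply, map_zero] at h1
    rw [Pi.zero_apply, ← h1, ← hfX]
    simp only [mulVec, dotProduct, map_sum, map_mul, RingHom.mapMatrix_apply, map_apply]

end Pool.Agent.H11.SG
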