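import Pool.Agent.H11.FM.Fam

/-!
# The basic class as an explicit cup product
-/

set_option autoImplicit false
set_option linter.unusedSectionVars false

namespace Pool.Agent.H11.SG

open Pool.Agent.H11.FM
open Pool.Agent.Y715.Gi (QB KK GK)
open Pool.Agent.Z384
open Pool.Agent.H76.PS IsLocalRing Filter Topology
open Pool.Agent.K7
open Pool.Agent.K7.H57.PS (norm_two_pow summable_geo summable_two tendsto_two cont_half toZMod_char
  dvd_of_toZMod toZMod_two)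
open Matrix

section log

variable {G : Type} [Group G] [TopologicalSpace G]

/-- the logarithm of a character -/
theorem exists_log2 {χ : G → ℤ_[2]} (hχ : IsChar χ) :
    ∃ φ : G → ℤ_[2], Continuous φ ∧ (∀ x y, φ (x * y) = φ x + φ y) ∧
      (∀ x, ∃ t, χ x ^ 2 = 1 + 8 * φ x + 16 * t) ∧ ∀ x y, χ x = χ y → φ x = φ y := by
  choose t ht using sq_char hχ
  have htc : Continuous t := by
    have h8 : Continuous fun x => 2 * (2 * (2 * t x)) := by
      have : (fun x => 2 * (2 * (2 * t x))) = fun x => χ x ^ 2 - 1 := by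
        funext x
        rw [ht]
        ring
      rw [this]
      exact (hχ.cont.pow 2).sub continuous_const
    exact cont_half (cont_half (cont_half h8))
  refine ⟨fun x => Ll (t x), Ll_cont.comp htc, fun x y => ?_, fun x => ?_, fun x y h => ?_⟩
  · exact Ll_mul (ht x) (ht y) (by rw [← hχ.mul, ht])
  · refine ⟨-(2 * ∑' k, 2 ^ k * Tl (t x) k ^ 2), ?_⟩
    have h1 : Ll (t x) = t x + 4 * ∑' k, 2 ^ k * Tl (t x) k ^ 2 := rfl
    rw [ht]
    beta_reduce
    rw [h1]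
    ring
  · have h1 : t x = t y := by
      have h2 : (8 : ℤ_[2]) ≠ 0 := by norm_num
      apply mul_left_cancel₀ h2
      have h3 := ht x
      rw [h, ht y] at h3
      linear_combination -h3
    beta_reduce
    rw [h1]

end log

section basic

variable {G : Type} [Group G] [TopologicalSpace G] [IsTopologicalGroup G]

/-- **The basic class.** -/
theorem exists_z02 {χ : G → ℤ_[2]} (hχ : IsChar χ) (hL : Lifts χ)
    (hA2 : ∀ ψ ∈ HS G, ψ ≠ 0 → ∃ b ∈ HS G, cup ψ b ∉ B2 G)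
    (hn : ∃ x, ∀ t, χ x ^ 2 ≠ 1 + 16 * t) : ∃ κ φ : G → ℤ_[2], Continuous κ ∧
      (∀ x y, κ (x * y) = κ x + χ x * κ y) ∧ Continuous φ ∧ (∀ x y, φ (x * y) = φ x + φ y) ∧
      (∀ x y, χ x = χ y → φ x = φ y) ∧ (∃ x, PadicInt.toZMod (φ x) ≠ 0) ∧
      (fun x y => κ x * φ y) ∈ Zp χ ∧ r2 (fun x y => κ x * φ y) ∉ B2 G := by
  obtain ⟨φ, hφ, hφm, hφt, hφχ⟩ := exists_log2 hχ
  have hψ : (fun x => PadicInt.toZMod (φ x)) ∈ HS G :=
    ⟨Pool.Agent.K7.H57.PS.lc_toZMod.comp_continuous hφ, fun x y => by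
      show PadicInt.toZMod (φ (x * y)) = _
      rw [hφm, map_add]⟩
  have hψ1 : ∃ x, PadicInt.toZMod (φ x) ≠ 0 := by
    by_contra h
    push Not at h
    obtain ⟨x, hx⟩ := hn
    obtain ⟨y, hy⟩ := dvd_of_toZMod (h x)
    obtain ⟨t, ht⟩ := hφt x
    refine hx (y + t) ?_
    rw [ht, hy]
    ring
  have hψ0 : (fun x => PadicInt.toZMod (φ x)) ≠ 0 := by
    intro h
    obtain ⟨x, hx⟩ := hψ1
    exact hx (congrFun h x)
  obtain ⟨b, hb, hcup⟩ := hA2 _ hψ hψ0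
  obtain ⟨κ, hκ, hκm, hκb⟩ := hL b hb
  refine ⟨κ, φ, hκ, hκm, hφ, hφm, hφχ, hψ1, ⟨(hκ.comp continuous_fst).mul (hφ.comp continuous_snd),
    fun x y w => ?_⟩, fun h => hcup ?_⟩
  · beta_reduce
    rw [hκm, hφm]
    ring
  · have h1 : r2 (fun x y => κ x * φ y) = cup b (fun x => PadicInt.toZMod (φ x)) := by
      funext x y
      simp only [r2, cup, map_mul, hκb]
    rw [h1] at h
    have h3 := (B2 G).sub_mem (Pool.Agent.K7.H29.PS.cup_symm hψ hb) h
    rwa [add_sub_cancel_right] at h3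

end basic

variable {s : QB}

theorem exists_datN2 (hB1 : StB1) (hB : StB) (hE0 : StE0) (hG1 : StG1) (hG2 : StG2) (hH : StH)
    (hA : StA) (hE : StE)
    {d : ℕ} (hs : s ^ 2 = -(d : QB)) (hF : Fld d) {χ : GK s → ℤ_[2]} (hχ : IsCyc χ)
    {c : QB ≃ₐ[ℚ] QB} (hc : IsConj c) {cj : GK s → GK s} (hcj : ∀ σ x, cj σ x = c (σ (c x))) :
    ∃ κ φ : GK s → ℤ_[2], Continuous κ ∧ Continuous φ ∧ (∀ σ τ, κ (σ * τ) = κ σ + χ σ * κ τ) ∧
      (∀ σ τ, φ (σ * τ) = φ σ + φ τ) ∧ (∀ σ ∈ Nf s, κ σ = 0) ∧ (∀ σ ∈ Nf s, φ σ = 0) ∧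
      (∀ σ, φ (cj σ) = φ σ) ∧ (∃ σ, PadicInt.toZMod (φ σ) ≠ 0) ∧
      DatN χ cj (fun σ τ => κ σ * φ τ) := by
  obtain ⟨hcomp, hpow, -⟩ := hE0 s d hs hF
  obtain ⟨hcnt, -⟩ := hE s d hs hF
  obtain ⟨hχc, hχn⟩ := hG1 s χ hχ
  have hcc : CompactSpace (GK s) := inferInstance
  obtain ⟨A1, A2⟩ := hA (Gs s) 1 le_rfl hcnt hpow
  -- the character of the quotient
  obtain ⟨χ', hχ'⟩ : ∃ χ' : Gs s → ℤ_[2], ∀ σ : GK s, χ' (QuotientGroup.mk σ) = χ σ := by
    refine ⟨fun x => Quotient.liftOn' x χ fun σ τ h => ?_, fun σ => rfl⟩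
    rw [QuotientGroup.leftRel_apply] at h
    have e1 : τ = σ * (σ⁻¹ * τ) := by group
    rw [e1, hχn _ _ h]
  have hmk : Function.Surjective (QuotientGroup.mk : GK s → Gs s) := QuotientGroup.mk_surjective
  have hχ'c : IsChar χ' := by
    refine ⟨?_, ?_, ?_⟩
    · refine (QuotientGroup.isOpenQuotientMap_mk (N := Nf s)).isQuotientMap.continuous_iff.2 ?_
      have : χ' ∘ (QuotientGroup.mk : GK s → Gs s) = χ := funext hχ'
      rw [this]
      exact hχc.cont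
    · have := hχ' 1
      rw [hχc.one] at this
      exact this
    · intro x y
      obtain ⟨σ, rfl⟩ := hmk x
      obtain ⟨τ, rfl⟩ := hmk y
      rw [← QuotientGroup.mk_mul, hχ', hχ', hχ', hχc.mul]
  have hL : Lifts χ' := hG2 s d hs hF χ hχ χ' hχ'
  obtain ⟨-, hinv⟩ := hB (Gs s) χ' hχ'c A1 hL
    (cq hc hcj) (cq_cont hc hcj) (map_mul _) (cq_cq hc hcj) (fun x => by
      obtain ⟨σ, rfl⟩ := hmk x
      rw [cq_mk, hχ', hχ', cyc_cj hc hcj hχ]) (hH s d hs hF χ hχ χ' hχ' c hc cj hcj (cq hc hcj)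
      (cq_mk hc hcj) A2)
  obtain ⟨κ, φ, hκc, hκm, hφc, hφm, hφχ, hφ0, hz₀, h₀⟩ := exists_z02 hχ'c hL A2 (by
    obtain ⟨σ, hσ⟩ := cyc_ne hs hF hc hχ
    exact ⟨QuotientGroup.mk σ, fun t => by rw [hχ']; exact hσ t⟩)
  obtain ⟨z₀, hz₀e⟩ : ∃ z₀ : Gs s → Gs s → ℤ_[2], z₀ = fun x y => κ x * φ y := ⟨_, rfl⟩
  rw [← hz₀e] at hz₀ h₀
  have hinv' : (fun x y => z₀ (cq hc hcj x) (cq hc hcj y) - z₀ x y) ∈ Bp χ' := by
    have hcZ : (fun x y => z₀ (cq hc hcj x) (cq hc hcj y)) ∈ Zp χ' := by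
      refine ⟨hz₀.1.comp (((cq_cont hc hcj).comp continuous_fst).prodMk
        ((cq_cont hc hcj).comp continuous_snd)), fun x y v => ?_⟩
      have h1 := hz₀.2 (cq hc hcj x) (cq hc hcj y) (cq hc hcj v)
      have h2 : χ' (cq hc hcj x) = χ' x := by
        obtain ⟨σ, rfl⟩ := hmk x
        rw [cq_mk, hχ', hχ', cyc_cj hc hcj hχ]
      rw [h2] at h1
      simpa only [← map_mul] using h1
    obtain ⟨a, ha⟩ := (hB1 (Gs s) χ' hχ'c A1).2.2.1 z₀ hz₀ h₀ _ hcZ
    have ha1 : a = 1 := by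
      obtain ⟨f, hf, hfz⟩ := ha
      obtain ⟨g, hg, hgz⟩ := hinv z₀ hz₀
      have h3 : Continuous fun x => g x - (f x : ℚ_[2]) :=
        hg.sub (continuous_subtype_val.comp hf)
      obtain ⟨N, g', hg', hgg⟩ := exists_scale h3
      have h5 := uniq (A := ℤ_[2]) (G := Gs s) (χ := χ') (z₀ := z₀) isAdic_padic two_mem_padic
        fin_padic hχ'c h₀ hL (a := 2 ^ N * (a - 1)) hg' (fun x y => by
          apply PadicInt.ext
          have h6 := hfz x y
          have h7 := hgz x y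
          have h8 : ((z₀ (cq hc hcj x) (cq hc hcj y) : ℤ_[2]) : ℚ_[2]) - (a : ℚ_[2]) * (z₀ x y : ℤ_[2]) =
              (f x : ℚ_[2]) + (χ' x : ℚ_[2]) * (f y : ℚ_[2]) - (f (x * y) : ℚ_[2]) := by
            have := congrArg (fun t : ℤ_[2] => (t : ℚ_[2])) h6
            push_cast at this
            exact this
          have e2 : ((2 : ℤ_[2]) : ℚ_[2]) = 2 := rfl
          unfold bdA
          rw [Algebra.algebraMap_self, RingHom.id_apply, smul_eq_mul]
          push_cast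
          rw [e2, hgg, hgg, hgg]
          linear_combination (2 : ℚ_[2]) ^ N * (h7 - h8))
      have h9 : (2 : ℤ_[2]) ^ N ≠ 0 := pow_ne_zero _ (by norm_num)
      exact sub_eq_zero.1 ((mul_eq_zero.1 h5).resolve_left h9)
    rw [ha1] at ha
    simpa only [one_mul] using ha
  have hκ0 : ∀ σ ∈ Nf s, κ (QuotientGroup.mk σ) = 0 := by
    intro σ hσ
    rw [(QuotientGroup.eq_one_iff σ).2 hσ]
    have := hκm 1 1
    rw [mul_one, hχ'c.one, one_mul] at this
    linear_combination -this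
  have hφ00 : ∀ σ ∈ Nf s, φ (QuotientGroup.mk σ) = 0 := by
    intro σ hσ
    rw [(QuotientGroup.eq_one_iff σ).2 hσ]
    have := hφm 1 1
    rw [mul_one] at this
    linear_combination -this
  refine ⟨fun σ => κ (QuotientGroup.mk σ), fun σ => φ (QuotientGroup.mk σ),
    hκc.comp QuotientGroup.continuous_mk, hφc.comp QuotientGroup.continuous_mk,
    fun σ τ => by
      rw [← hχ']
      exact hκm (QuotientGroup.mk σ) (QuotientGroup.mk τ),
    fun σ τ => hφm (QuotientGroup.mk σ) (QuotientGroup.mk τ), hκ0, hφ00,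
    fun σ => hφχ _ _ (by rw [hχ', hχ', cyc_cj hc hcj hχ]), ?_, ?_⟩
  · obtain ⟨x, hx⟩ := hφ0
    obtain ⟨σ, rfl⟩ := hmk x
    exact ⟨σ, hx⟩
  have hzz : (fun σ τ : GK s => κ (QuotientGroup.mk σ) * φ (QuotientGroup.mk τ)) =
      fun σ τ => z₀ (QuotientGroup.mk σ) (QuotientGroup.mk τ) := by
    rw [hz₀e]
  rw [hzz]
  refine ⟨?_, ?_, ?_⟩
  · intro A _ _ _ _ _ _ hA hc h2 hfin z hz
    obtain ⟨z', hz'c, hz'⟩ := descend2 hz.cont hz.inv1 hz.inv2
    have hZ : ZG χ' z' := ⟨hz'c, fun x y w => by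
      obtain ⟨σ, rfl⟩ := hmk x
      obtain ⟨τ, rfl⟩ := hmk y
      obtain ⟨υ, rfl⟩ := hmk w
      rw [← QuotientGroup.mk_mul, ← QuotientGroup.mk_mul, hz', hz', hz', hz', hχ', hz.coc]⟩
    obtain ⟨a, f, hf, hfz⟩ := gen hA hc h2 hfin hχ'c A1 hz₀ h₀ hZ
    refine ⟨a, fun σ => f (QuotientGroup.mk σ), hf.comp QuotientGroup.continuous_mk,
      fun σ n hn => ?_, fun x y => ?_⟩
    · beta_reduce
      congr 1
      exact (QuotientGroup.mk_mul_of_mem σ hn)
    · have h5 := hfz (QuotientGroup.mk x) (QuotientGroup.mk y)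
      rw [hz', bdA, hχ', ← QuotientGroup.mk_mul] at h5
      beta_reduce
      rw [h5]
      ring
  · intro A _ _ _ _ _ _ hA h2 hfin a h
    obtain ⟨f, hf, hfn, hfz⟩ := h
    obtain ⟨f', hf'⟩ : ∃ f' : Gs s → A, ∀ σ : GK s, f' (QuotientGroup.mk σ) = f σ := by
      refine ⟨fun x => Quotient.liftOn' x f fun σ τ h => ?_, fun σ => rfl⟩
      rw [QuotientGroup.leftRel_apply] at h
      have e1 : τ = σ * (σ⁻¹ * τ) := by group
      rw [e1, hfn _ _ h]
    have hfc : Continuous f' := by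
      refine (QuotientGroup.isOpenQuotientMap_mk (N := Nf s)).isQuotientMap.continuous_iff.2 ?_
      have : f' ∘ (QuotientGroup.mk : GK s → Gs s) = f := funext hf'
      rw [this]
      exact hf
    refine uniq hA h2 hfin hχ'c h₀ hL hfc fun x y => ?_
    obtain ⟨σ, rfl⟩ := hmk x
    obtain ⟨τ, rfl⟩ := hmk y
    rw [bdA, ← QuotientGroup.mk_mul, hf', hf', hf', hχ']
    exact hfz σ τ
  · intro A _ _ _ _ _ _ hA h2
    obtain ⟨f, hf, hfz⟩ := hinv'
    refine ⟨fun σ => algebraMap ℤ_[2] A (f (QuotientGroup.mk σ)),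
      (cont_alg hA h2).comp (hf.comp QuotientGroup.continuous_mk), fun σ n hn => ?_, fun x y => ?_⟩
    · beta_reduce
      congr 2
      exact (QuotientGroup.mk_mul_of_mem σ hn)
    · have h5 := congrArg (algebraMap ℤ_[2] A) (hfz (QuotientGroup.mk x) (QuotientGroup.mk y))
      beta_reduce at h5
      rw [cq_mk, cq_mk, hχ', ← QuotientGroup.mk_mul] at h5
      simp only [map_sub, map_add, map_mul] at h5
      rw [Algebra.smul_def]
      exact h5

end Pool.Agent.H11.SG
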