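import Pool.Agent.H11.SG.NF

/-!
# The determinant of an alternating matrix is a square
-/

set_option autoImplicit false

namespace Pool.Agent.H11.SG

open Matrix

section

variable {O : Type} [CommRing O] [IsDomain O] {k t r : ℕ} {C : Matrix (Fin k) (Fin k) O}
  {g : Fin t → O} {E : (Fin k → O) ≃ₗ[O] (Fin t → O × O) × (Fin r → O)}

/-- the coordinates as a function on `Fin 2 × Fin t` -/
def cd (E : (Fin k → O) ≃ₗ[O] (Fin t → O × O) × (Fin 0 → O)) :
    (Fin k → O) ≃ₗ[O] (Fin 2 × Fin t → O) where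
  toFun x p := if p.1 = 0 then ((E x).1 p.2).1 else ((E x).1 p.2).2
  map_add' x y := by
    funext p
    rcases p with ⟨a, b⟩
    by_cases h : a = 0 <;> simp [h]
  map_smul' c x := by
    funext p
    rcases p with ⟨a, b⟩
    by_cases h : a = 0 <;> simp [h]
  invFun v := E.symm (fun i => (v (0, i), v (1, i)), fun i => i.elim0)
  left_inv x := by
    apply E.injective
    rw [E.apply_symm_apply]
    refine Prod.ext (funext fun i => Prod.ext ?_ ?_) (funext fun i => i.elim0)
    · simp
    · simp
  right_inv v := by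
    funext p
    rcases p with ⟨a, b⟩
    show (if a = 0 then _ else _) = _
    rw [E.apply_symm_apply]
    fin_cases a <;> simp

theorem det0 {E : (Fin k → O) ≃ₗ[O] (Fin t → O × O) × (Fin 0 → O)}
    (hE : ∀ x y, x ⬝ᵥ (C *ᵥ y) =
      ∑ i, g i * (((E x).1 i).1 * ((E y).1 i).2 - ((E x).1 i).2 * ((E y).1 i).1)) :
    ∃ u : O, IsUnit u ∧ C.det = (u * ∏ i, g i) ^ 2 := by
  classical
  have hcard : Fintype.card (Fin 2 × Fin t) = Fintype.card (Fin k) := by
    have h := (cd E).finrank_eq
    rw [Module.finrank_fintype_fun_eq_card, Module.finrank_fintype_fun_eq_card] at h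
    exact h.symm
  obtain ⟨e⟩ : Nonempty (Fin 2 × Fin t ≃ Fin k) := Fintype.card_eq.1 hcard
  let L : (Fin k → O) ≃ₗ[O] (Fin k → O) := (cd E).trans (LinearEquiv.funCongrLeft O O e.symm)
  have hL : ∀ x a, L x a = cd E x (e.symm a) := fun x a => rfl
  obtain ⟨G, hG⟩ : ∃ G : Matrix (Fin 2 × Fin t) (Fin 2 × Fin t) O,
    G = blockDiagonal (fun i => !![0, g i; -g i, 0]) := ⟨_, rfl⟩
  have hdet : G.det = (∏ i, g i) ^ 2 := by
    rw [hG, det_blockDiagonal, ← Finset.prod_pow]
    refine Finset.prod_congr rfl fun i _ => ?_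
    rw [det_fin_two_of]
    ring
  obtain ⟨U, hU⟩ : ∃ U, U = LinearMap.toMatrix' L.toLinearMap := ⟨_, rfl⟩
  have hUx : ∀ x, U *ᵥ x = L x := by
    intro x
    rw [hU, ← Matrix.toLin'_apply, Matrix.toLin'_toMatrix']
    rfl
  have hmain : C = Uᵀ * G.submatrix e.symm e.symm * U := by
    apply Matrix.toBilin'.injective
    refine LinearMap.ext fun x => LinearMap.ext fun y => ?_
    rw [Matrix.toBilin'_apply', Matrix.toBilin'_apply', hE, ← mulVec_mulVec, ← mulVec_mulVec, hUx,
      dotProduct_mulVec, vecMul_transpose, hUx]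
    have h1 : L x ⬝ᵥ (G.submatrix e.symm e.symm *ᵥ L y) =
        ∑ p : Fin 2 × Fin t, ∑ q : Fin 2 × Fin t, cd E x p * (G p q * cd E y q) := by
      rw [dotProduct, ← e.sum_comp]
      refine Finset.sum_congr rfl fun p _ => ?_
      rw [mulVec, dotProduct, Finset.mul_sum, ← e.sum_comp]
      refine Finset.sum_congr rfl fun q _ => ?_
      rw [hL, hL, submatrix_apply, e.symm_apply_apply, e.symm_apply_apply]
    rw [h1]
    simp only [Fintype.sum_prod_type, Fin.sum_univ_two]
    rw [← Finset.sum_add_distrib]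
    refine Finset.sum_congr rfl fun i _ => ?_
    have h2 : ∀ a b : Fin 2, ∑ j : Fin t, cd E x (a, i) * (G (a, i) (b, j) * cd E y (b, j)) =
        cd E x (a, i) * ((!![0, g i; -g i, 0] : Matrix _ _ O) a b * cd E y (b, i)) := by
      intro a b
      rw [Finset.sum_eq_single i]
      · rw [hG, blockDiagonal_apply_eq]
      · intro j _ hj
        rw [hG, blockDiagonal_apply_ne _ _ _ (Ne.symm hj), zero_mul, mul_zero]
      · intro h
        exact absurd (Finset.mem_univ _) h
    rw [h2, h2, h2, h2]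
    have h3 : ∀ x, cd E x (0, i) = ((E x).1 i).1 := fun x => rfl
    have h4 : ∀ x, cd E x (1, i) = ((E x).1 i).2 := fun x => rfl
    rw [h3, h3, h4, h4]
    simp
    ring
  refine ⟨U.det, ?_, ?_⟩
  · rw [hU, LinearMap.det_toMatrix']
    exact LinearEquiv.isUnit_det' L
  · have h5 := congrArg Matrix.det hmain
    rw [h5, det_mul, det_mul, det_transpose, det_submatrix_equiv_self, hdet]
    ring

theorem sDET : S_DET := by
  intro O _ _ k t r C g E hE
  constructor
  · rintro rfl
    exact det0 hE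
  · intro hr
    obtain ⟨j⟩ : Nonempty (Fin r) := ⟨⟨0, Nat.pos_of_ne_zero hr⟩⟩
    rw [← Matrix.exists_mulVec_eq_zero_iff]
    refine ⟨E.symm (0, Pi.single j 1), ?_, ?_⟩
    · intro h
      have h1 := congrArg E h
      rw [E.apply_symm_apply, map_zero] at h1
      have h2 := congrFun (congrArg Prod.snd h1) j
      simp at h2
    · funext i
      have h2 := hE (Pi.single i 1) (E.symm (0, Pi.single j 1))
      rw [single_one_dotProduct] at h2
      rw [h2, E.apply_symm_apply]
      simp

end

/-- **the Pfaffian** -/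
theorem sPF : S_PF := by
  classical
  intro A _ k C hC hd
  have hsk : ∀ i j, C j i = -C i j := fun i j => congrFun (congrFun hC i) j
  let R := MvPolynomial (Fin k × Fin k) ℤ
  let X : Matrix (Fin k) (Fin k) R := fun i j => if i < j then MvPolynomial.X (i, j) else
    if j < i then -MvPolynomial.X (j, i) else 0
  have hX : ∀ i j, X i j = if i < j then MvPolynomial.X (i, j) else
    if j < i then -MvPolynomial.X (j, i) else 0 := fun i j => rfl
  let F := FractionRing R
  have hXt : (X.map (algebraMap R F))ᵀ = -(X.map (algebraMap R F)) := by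
    ext i j
    rw [transpose_apply, neg_apply, map_apply, map_apply, ← map_neg]
    congr 1
    rw [hX, hX]
    rcases lt_trichotomy i j with h | h | h
    · rw [if_neg (not_lt.2 h.le), if_pos h, if_pos h]
    · subst h
      simp
    · rw [if_pos h, if_neg (not_lt.2 h.le), if_pos h, neg_neg]
  have hXd : ∀ i, (X.map (algebraMap R F)) i i = 0 := by
    intro i
    rw [map_apply, hX]
    simp
  obtain ⟨t, r, g, E, -, hE⟩ := sNF F k _ hXt hXd
  obtain ⟨s, hs⟩ : ∃ s : F, s ^ 2 = (X.map (algebraMap R F)).det := by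
    obtain ⟨h1, h2⟩ := sDET F k t r _ g E hE
    by_cases hr : r = 0
    · obtain ⟨u, -, hu⟩ := h1 hr
      exact ⟨_, hu.symm⟩
    · refine ⟨0, ?_⟩
      rw [h2 hr]
      simp
  have hs' : s ^ 2 = algebraMap R F X.det := by
    rw [hs, RingHom.map_det]
    rfl
  obtain ⟨p, hp⟩ : ∃ p : R, algebraMap R F p = s :=
    IsIntegrallyClosed.exists_algebraMap_eq_of_isIntegral_pow (n := 2) (by norm_num)
      (by rw [hs']; exact isIntegral_algebraMap)
  have hp2 : p ^ 2 = X.det := by
    apply IsFractionRing.injective R F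
    rw [map_pow, hp, hs']
  let f : R →+* A := MvPolynomial.eval₂Hom (Int.castRingHom A) (fun q => C q.1 q.2)
  refine ⟨f p, ?_⟩
  rw [← map_pow, hp2, RingHom.map_det]
  congr 1
  ext i j
  rw [RingHom.mapMatrix_apply, map_apply, hX]
  rcases lt_trichotomy i j with h | h | h
  · rw [if_pos h]
    exact MvPolynomial.eval₂Hom_X' _ _ _
  · subst h
    rw [if_neg (lt_irrefl _), if_neg (lt_irrefl _), map_zero, hd]
  · rw [if_neg (not_lt.2 h.le), if_pos h, map_neg, hsk j i]
    congr 1
    exact MvPolynomial.eval₂Hom_X' _ _ _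

end Pool.Agent.H11.SG
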