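import Pool.Agent.H11.SG.NF

/-!
# The kernel of an alternating matrix modulo the powers of a uniformizer
-/

set_option autoImplicit false

namespace Pool.Agent.H11.SG

open Matrix

section

variable {O : Type} [CommRing O] [IsDomain O]

/-- two surjections with the same kernel -/
lemma equiv_of_ker {X Y Z : Type} [AddCommGroup X] [AddCommGroup Y] [AddCommGroup Z] [Module O X]
    [Module O Y] [Module O Z] (f : X →ₗ[O] Y) (g : X →ₗ[O] Z) (hf : Function.Surjective f)
    (hg : Function.Surjective g) (h : ∀ x, f x = 0 ↔ g x = 0) : Nonempty (Y ≃ₗ[O] Z) := by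
  have hk : LinearMap.ker f = LinearMap.ker g := by
    ext x
    exact h x
  exact ⟨((f.quotKerEquivOfSurjective hf).symm.trans (Submodule.quotEquivOfEq _ _ hk)).trans
    (g.quotKerEquivOfSurjective hg)⟩

/-- division of a linear form -/
lemma exists_div' {M : Type} [AddCommGroup M] [Module O M] {g : O} (hg : g ≠ 0) (f : M →ₗ[O] O)
    (h : ∀ z, g ∣ f z) : ∃ a : M →ₗ[O] O, ∀ z, f z = g * a z := by
  choose a ha using h
  refine ⟨{ toFun := a, map_add' := fun x y => ?_, map_smul' := fun c x => ?_ }, ha⟩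
  · apply mul_left_cancel₀ hg
    rw [← ha, map_add, ha, ha, mul_add]
  · apply mul_left_cancel₀ hg
    rw [← ha, map_smul, ha, RingHom.id_apply, smul_eq_mul, smul_eq_mul]
    ring

/-- The module of the theorem: two copies of `⊕ O / ϖ ^ min (e i) j` and `r` copies of `O / ϖ ^ j`. -/
abbrev Tm (ϖ : O) {t : ℕ} (e : Fin t → ℕ) (r j : ℕ) : Type :=
  (((i : Fin t) → O ⧸ Ideal.span {ϖ ^ min (e i) j}) ×
    ((i : Fin t) → O ⧸ Ideal.span {ϖ ^ min (e i) j})) × (Fin r → O ⧸ Ideal.span {ϖ ^ j})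

/-- the reduction of vectors -/
def red (ϖ : O) (j k : ℕ) : (Fin k → O) →ₗ[O] (Fin k → O ⧸ Ideal.span {ϖ ^ j}) :=
  LinearMap.pi fun i => (Submodule.mkQ _).comp (LinearMap.proj i)

lemma red_apply (ϖ : O) (j k : ℕ) (x : Fin k → O) (i : Fin k) :
    red ϖ j k x i = Ideal.Quotient.mk _ (x i) := rfl

lemma red_surj (ϖ : O) (j k : ℕ) : Function.Surjective (red ϖ j k) := by
  intro y
  choose x hx using fun i => Ideal.Quotient.mk_surjective (y i)
  exact ⟨x, funext hx⟩

lemma red_eq_zero {ϖ : O} {j k : ℕ} {x : Fin k → O} : red ϖ j k x = 0 ↔ ∀ i, ϖ ^ j ∣ x i := by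
  rw [funext_iff]
  refine forall_congr' fun i => ?_
  rw [red_apply, Pi.zero_apply, Ideal.Quotient.eq_zero_iff_mem, Ideal.mem_span_singleton]

variable {k t r : ℕ} {C : Matrix (Fin k) (Fin k) O} {g : Fin t → O} {ϖ : O} {e : Fin t → ℕ}
  {E : (Fin k → O) ≃ₗ[O] (Fin t → O × O) × (Fin r → O)}

/-- vectors in the kernel modulo `ϖ ^ j` -/
lemma mem_iff (hϖ : ϖ ≠ 0) (hg : ∀ i, Associated (g i) (ϖ ^ e i))
    (hE : ∀ x y, x ⬝ᵥ (C *ᵥ y) =
      ∑ i, g i * (((E x).1 i).1 * ((E y).1 i).2 - ((E x).1 i).2 * ((E y).1 i).1)) (j : ℕ)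
    (u : Fin k → O) : (∀ i, ϖ ^ j ∣ (C *ᵥ u) i) ↔
      ∀ i, ϖ ^ (j - min (e i) j) ∣ ((E u).1 i).1 ∧ ϖ ^ (j - min (e i) j) ∣ ((E u).1 i).2 := by
  have h1 : ∀ (i : Fin t) (a : O), ϖ ^ j ∣ g i * a ↔ ϖ ^ (j - min (e i) j) ∣ a := by
    intro i a
    rw [((hg i).mul_right a).dvd_iff_dvd_right]
    rcases le_total (e i) j with h | h
    · rw [min_eq_left h]
      conv_lhs => rw [← Nat.add_sub_cancel' h, pow_add]
      exact mul_dvd_mul_iff_left (pow_ne_zero _ hϖ)
    · rw [min_eq_right h, Nat.sub_self, pow_zero]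
      exact ⟨fun _ => one_dvd _, fun _ => Dvd.dvd.mul_right (pow_dvd_pow ϖ h) _⟩
  constructor
  · intro h i
    have h2 : ∀ x, ϖ ^ j ∣ x ⬝ᵥ (C *ᵥ u) := fun x =>
      Finset.dvd_sum fun i _ => Dvd.dvd.mul_left (h i) _
    constructor
    · have h3 := h2 (E.symm (Pi.single i (0, 1), 0))
      rw [hE, E.apply_symm_apply, Finset.sum_eq_single i] at h3
      · simp only [Pi.single_eq_same, zero_mul, one_mul, zero_sub, mul_neg, dvd_neg] at h3
        exact (h1 _ _).1 h3
      · intro i' _ hi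
        simp [Pi.single_eq_of_ne hi]
      · intro h
        exact absurd (Finset.mem_univ _) h
    · have h3 := h2 (E.symm (Pi.single i (1, 0), 0))
      rw [hE, E.apply_symm_apply, Finset.sum_eq_single i] at h3
      · simp only [Pi.single_eq_same, zero_mul, one_mul, sub_zero] at h3
        exact (h1 _ _).1 h3
      · intro i' _ hi
        simp [Pi.single_eq_of_ne hi]
      · intro h
        exact absurd (Finset.mem_univ _) h
  · intro h i
    have h2 : (C *ᵥ u) i = Pi.single i 1 ⬝ᵥ (C *ᵥ u) := by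
      rw [single_one_dotProduct]
    rw [h2, hE]
    refine Finset.dvd_sum fun i' _ => ?_
    rw [mul_sub]
    refine dvd_sub ?_ ?_
    · rw [mul_left_comm]
      exact Dvd.dvd.mul_left ((h1 _ _).2 (h i').2) _
    · rw [mul_left_comm]
      exact Dvd.dvd.mul_left ((h1 _ _).2 (h i').1) _

/-- **the kernel modulo `ϖ ^ j`** -/
theorem ker_equiv (hϖ : ϖ ≠ 0) (hg : ∀ i, Associated (g i) (ϖ ^ e i))
    (hE : ∀ x y, x ⬝ᵥ (C *ᵥ y) =
      ∑ i, g i * (((E x).1 i).1 * ((E y).1 i).2 - ((E x).1 i).2 * ((E y).1 i).1)) (j : ℕ)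
    (K : Submodule O (Fin k → O ⧸ Ideal.span {ϖ ^ j}))
    (hK : ∀ u, u ∈ K ↔ (C.map (Ideal.Quotient.mk (Ideal.span {ϖ ^ j}))) *ᵥ u = 0) :
    Nonempty (K ≃ₗ[O] Tm ϖ e r j) := by
  have hpow : ∀ m, ϖ ^ m ≠ 0 := fun m => pow_ne_zero _ hϖ
  -- vectors over `O`
  have hKu : ∀ u : Fin k → O, u ∈ K.comap (red ϖ j k) ↔
      ∀ i, ϖ ^ (j - min (e i) j) ∣ ((E u).1 i).1 ∧ ϖ ^ (j - min (e i) j) ∣ ((E u).1 i).2 := by
    intro u
    rw [Submodule.mem_comap, hK, ← mem_iff hϖ hg hE j u, funext_iff]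
    refine forall_congr' fun i => ?_
    have h1 : ((C.map (Ideal.Quotient.mk (Ideal.span {ϖ ^ j}))) *ᵥ red ϖ j k u) i =
        Ideal.Quotient.mk (Ideal.span {ϖ ^ j}) ((C *ᵥ u) i) := by
      simp only [mulVec, dotProduct, map_sum, map_mul, Matrix.map_apply, red_apply]
    rw [h1, Pi.zero_apply, Ideal.Quotient.eq_zero_iff_mem, Ideal.mem_span_singleton]
  obtain ⟨K', hK'⟩ : ∃ K', K' = K.comap (red ϖ j k) := ⟨_, rfl⟩
  rw [← hK'] at hKu
  -- the two components divided by the power of `ϖ`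
  choose a ha using fun i : Fin t => exists_div' (hpow (j - min (e i) j))
    (((LinearMap.fst O O O).comp (LinearMap.proj (R := O) (φ := fun _ : Fin t => O × O) i)).comp
      ((LinearMap.fst O (Fin t → O × O) (Fin r → O)).comp
      (E.toLinearMap.comp K'.subtype))) (fun u => ((hKu u).1 u.2 i).1)
  choose b hb using fun i : Fin t => exists_div' (hpow (j - min (e i) j))
    (((LinearMap.snd O O O).comp (LinearMap.proj (R := O) (φ := fun _ : Fin t => O × O) i)).comp
      ((LinearMap.fst O (Fin t → O × O) (Fin r → O)).comp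
      (E.toLinearMap.comp K'.subtype))) (fun u => ((hKu u).1 u.2 i).2)
  have ha' : ∀ i (u : K'), ((E u).1 i).1 = ϖ ^ (j - min (e i) j) * a i u := fun i u => ha i u
  have hb' : ∀ i (u : K'), ((E u).1 i).2 = ϖ ^ (j - min (e i) j) * b i u := fun i u => hb i u
  let Ψ : K' →ₗ[O] Tm ϖ e r j :=
    ((LinearMap.pi fun i => (Submodule.mkQ (Ideal.span {ϖ ^ min (e i) j})).comp (a i)).prod
      (LinearMap.pi fun i => (Submodule.mkQ (Ideal.span {ϖ ^ min (e i) j})).comp (b i))).prod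
      (LinearMap.pi fun i => (Submodule.mkQ (Ideal.span {ϖ ^ j})).comp ((LinearMap.proj i).comp
        ((LinearMap.snd O _ _).comp (E.toLinearMap.comp K'.subtype))))
  have hΨ : ∀ u : K', Ψ u = (((fun i => Ideal.Quotient.mk _ (a i u)),
    (fun i => Ideal.Quotient.mk _ (b i u))), (fun i => Ideal.Quotient.mk _ ((E u).2 i))) :=
    fun u => rfl
  let Φ : K' →ₗ[O] K := (red ϖ j k).restrict (fun u hu => by
    rw [hK'] at hu
    exact hu)
  have hΦ : ∀ u : K', ((Φ u : K) : Fin k → _) = red ϖ j k u := fun u => rfl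
  refine equiv_of_ker Φ Ψ ?_ ?_ ?_
  · rintro ⟨y, hy⟩
    obtain ⟨u, hu⟩ := red_surj ϖ j k y
    refine ⟨⟨u, ?_⟩, Subtype.ext ?_⟩
    · rw [hK', Submodule.mem_comap, hu]
      exact hy
    · exact hu
  · rintro ⟨⟨x, y⟩, z⟩
    choose x' hx using fun i => Ideal.Quotient.mk_surjective (x i)
    choose y' hy using fun i => Ideal.Quotient.mk_surjective (y i)
    choose z' hz using fun i => Ideal.Quotient.mk_surjective (z i)
    obtain ⟨u, hu⟩ : ∃ u, u = E.symm (fun i => (ϖ ^ (j - min (e i) j) * x' i,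
      ϖ ^ (j - min (e i) j) * y' i), z') := ⟨_, rfl⟩
    have hEu : E u = (fun i => (ϖ ^ (j - min (e i) j) * x' i, ϖ ^ (j - min (e i) j) * y' i), z') := by
      rw [hu, E.apply_symm_apply]
    have huK : u ∈ K' := by
      rw [hKu]
      intro i
      rw [hEu]
      exact ⟨dvd_mul_right _ _, dvd_mul_right _ _⟩
    have e1 : ∀ i, a i ⟨u, huK⟩ = x' i := by
      intro i
      apply mul_left_cancel₀ (hpow (j - min (e i) j))
      rw [← ha']
      show ((E u).1 i).1 = _
      rw [hEu]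
    have e2 : ∀ i, b i ⟨u, huK⟩ = y' i := by
      intro i
      apply mul_left_cancel₀ (hpow (j - min (e i) j))
      rw [← hb']
      show ((E u).1 i).2 = _
      rw [hEu]
    refine ⟨⟨u, huK⟩, ?_⟩
    rw [hΨ]
    refine Prod.ext (Prod.ext (funext fun i => ?_) (funext fun i => ?_)) (funext fun i => ?_)
    · show Ideal.Quotient.mk _ (a i ⟨u, huK⟩) = x i
      rw [e1, hx]
    · show Ideal.Quotient.mk _ (b i ⟨u, huK⟩) = y i
      rw [e2, hy]
    · show Ideal.Quotient.mk _ ((E u).2 i) = z i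
      rw [hEu, hz]
  · intro u
    have h1 : Φ u = 0 ↔ ∀ i, ϖ ^ j ∣ (u : Fin k → O) i := by
      rw [← red_eq_zero, ← hΦ, Submodule.coe_eq_zero]
    have h2 : Ψ u = 0 ↔ (∀ i, ϖ ^ j ∣ ((E u).1 i).1 ∧ ϖ ^ j ∣ ((E u).1 i).2) ∧
        ∀ i, ϖ ^ j ∣ (E u).2 i := by
      have h3 : ∀ (i : Fin t) (c : O), ϖ ^ j ∣ ϖ ^ (j - min (e i) j) * c ↔ ϖ ^ min (e i) j ∣ c := by
        intro i c
        conv_lhs => rw [← Nat.sub_add_cancel (min_le_right (e i) j), pow_add]
        rw [Nat.sub_add_cancel (min_le_right (e i) j)]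
        exact mul_dvd_mul_iff_left (hpow _)
      rw [hΨ, Prod.ext_iff, Prod.ext_iff, funext_iff, funext_iff, funext_iff, ← forall_and]
      refine and_congr (forall_congr' fun i => and_congr ?_ ?_) (forall_congr' fun i => ?_)
      · rw [ha', h3]
        show Ideal.Quotient.mk _ (a i u) = 0 ↔ _
        rw [Ideal.Quotient.eq_zero_iff_mem, Ideal.mem_span_singleton]
      · rw [hb', h3]
        show Ideal.Quotient.mk _ (b i u) = 0 ↔ _
        rw [Ideal.Quotient.eq_zero_iff_mem, Ideal.mem_span_singleton]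
      · show Ideal.Quotient.mk _ ((E u).2 i) = 0 ↔ _
        rw [Ideal.Quotient.eq_zero_iff_mem, Ideal.mem_span_singleton]
    rw [h1, h2]
    constructor
    · intro h
      choose v hv using h
      have h4 : (u : Fin k → O) = ϖ ^ j • v := funext hv
      rw [h4, map_smul]
      exact ⟨fun i => ⟨⟨_, rfl⟩, ⟨_, rfl⟩⟩, fun i => ⟨_, rfl⟩⟩
    · rintro ⟨h, h'⟩
      choose v hv using fun i => (h i).1
      choose w hw using fun i => (h i).2
      choose z hz using h'
      have h4 : E u = ϖ ^ j • (fun i => (v i, w i), z) := by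
        refine Prod.ext (funext fun i => Prod.ext ?_ ?_) (funext fun i => ?_)
        · exact hv i
        · exact hw i
        · exact hz i
      have h5 : (u : Fin k → O) = ϖ ^ j • E.symm (fun i => (v i, w i), z) := by
        apply E.injective
        rw [h4, map_smul, E.apply_symm_apply]
      intro i
      rw [h5]
      exact ⟨_, rfl⟩

end

end Pool.Agent.H11.SG
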