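import Pool.Agent.H11.SG.Stm

/-!
# The normal form of an alternating form over a valuation ring
-/

set_option autoImplicit false

namespace Pool.Agent.H11.SG

open Matrix

section

variable {O : Type} [CommRing O] [IsDomain O] [IsPrincipalIdealRing O] [ValuationRing O]

lemma exists_min {ι : Type} (s : Finset ι) (hs : s.Nonempty) (f : ι → O) :
    ∃ i ∈ s, ∀ j ∈ s, f i ∣ f j := by
  classical
  induction s using Finset.induction_on with
  | empty => exact absurd hs Finset.not_nonempty_empty
  | insert a s ha ih =>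
    rcases s.eq_empty_or_nonempty with rfl | h
    · refine ⟨a, by simp, fun j hj => ?_⟩
      rw [Finset.mem_insert] at hj
      rcases hj with rfl | hj
      · exact dvd_rfl
      · simp at hj
    · obtain ⟨i, hi, h1⟩ := ih h
      rcases ValuationRing.dvd_total (f i) (f a) with h2 | h2
      · refine ⟨i, Finset.mem_insert_of_mem hi, fun j hj => ?_⟩
        rcases Finset.mem_insert.1 hj with rfl | hj
        · exact h2
        · exact h1 j hj
      · refine ⟨a, Finset.mem_insert_self _ _, fun j hj => ?_⟩
        rcases Finset.mem_insert.1 hj with rfl | hj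
        · exact dvd_rfl
        · exact h2.trans (h1 j hj)

variable {M : Type} [AddCommGroup M] [Module O M]

lemma exists_pivot [Module.Free O M] [Module.Finite O M] (B : M →ₗ[O] M →ₗ[O] O) (hB : B ≠ 0) :
    ∃ x y, B x y ≠ 0 ∧ ∀ z w, B x y ∣ B z w := by
  classical
  set b := Module.Free.chooseBasis O M with hb
  have hne : (Finset.univ : Finset (Module.Free.ChooseBasisIndex O M ×
      Module.Free.ChooseBasisIndex O M)).Nonempty := by
    by_contra h
    rw [Finset.not_nonempty_iff_eq_empty] at h
    apply hB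
    refine b.ext fun i => b.ext fun j => ?_
    have : (i, j) ∈ (Finset.univ : Finset (Module.Free.ChooseBasisIndex O M ×
      Module.Free.ChooseBasisIndex O M)) := Finset.mem_univ _
    rw [h] at this
    simp at this
  obtain ⟨⟨i, j⟩, -, h⟩ := exists_min _ hne (fun p => B (b p.1) (b p.2))
  refine ⟨b i, b j, fun h0 => hB ?_, fun z w => ?_⟩
  · refine b.ext fun i' => b.ext fun j' => ?_
    have := h (i', j') (Finset.mem_univ _)
    simp only [h0, zero_dvd_iff] at this
    rw [this]
    rfl
  · rw [← b.sum_repr z, ← b.sum_repr w]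
    simp only [map_sum, LinearMap.sum_apply, map_smul, LinearMap.smul_apply, smul_eq_mul]
    exact Finset.dvd_sum fun i' _ => Dvd.dvd.mul_left (Finset.dvd_sum fun j' _ =>
      Dvd.dvd.mul_left (h (j', i') (Finset.mem_univ _)) _) _

/-- division of a linear form -/
lemma exists_div {g : O} (hg : g ≠ 0) (f : M →ₗ[O] O) (h : ∀ z, g ∣ f z) :
    ∃ a : M →ₗ[O] O, ∀ z, f z = g * a z := by
  choose a ha using h
  refine ⟨{ toFun := a, map_add' := fun x y => ?_, map_smul' := fun c x => ?_ }, ha⟩
  · apply mul_left_cancel₀ hg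
    rw [← ha, map_add, ha, ha, mul_add]
  · apply mul_left_cancel₀ hg
    rw [← ha, map_smul, ha, RingHom.id_apply, smul_eq_mul, smul_eq_mul]
    ring

theorem nf_aux : ∀ (n : ℕ) (M : Type) [AddCommGroup M] [Module O M] [Module.Free O M]
    [Module.Finite O M], Module.finrank O M = n → ∀ B : M →ₗ[O] M →ₗ[O] O, (∀ x, B x x = 0) →
    ∃ (t r : ℕ) (g : Fin t → O) (E : M ≃ₗ[O] (Fin t → O × O) × (Fin r → O)),
      (∀ i, g i ≠ 0) ∧ ∀ x y, B x y =
        ∑ i, g i * (((E x).1 i).1 * ((E y).1 i).2 - ((E x).1 i).2 * ((E y).1 i).1) := by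
  intro n
  induction n using Nat.strong_induction_on with
  | _ n ih =>
  intro M _ _ _ _ hn B hB
  by_cases hB0 : B = 0
  · refine ⟨0, n, Fin.elim0, (Module.finBasisOfFinrankEq O M hn).equivFun.trans
      LinearEquiv.uniqueProd.symm, fun i => i.elim0, fun x y => ?_⟩
    rw [hB0]
    simp
  obtain ⟨x, y, hg, hdvd⟩ := exists_pivot B hB0
  have hskew : ∀ z w, B z w = -B w z := by
    intro z w
    have h := hB (z + w)
    simp only [map_add, LinearMap.add_apply, hB] at h
    linear_combination h
  obtain ⟨g, hgd⟩ : ∃ g, g = B x y := ⟨_, rfl⟩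
  rw [← hgd] at hg hdvd
  obtain ⟨α, hα⟩ := exists_div hg (B.flip y) (fun z => hdvd z y)
  obtain ⟨β, hβ⟩ := exists_div hg (B x) (fun z => hdvd x z)
  have hα' : ∀ z, B z y = g * α z := fun z => hα z
  have αx : α x = 1 := by
    apply mul_left_cancel₀ hg
    rw [← hα', ← hgd, mul_one]
  have αy : α y = 0 := by
    apply mul_left_cancel₀ hg
    rw [← hα', hB, mul_zero]
  have βx : β x = 0 := by
    apply mul_left_cancel₀ hg
    rw [← hβ, hB, mul_zero]
  have βy : β y = 1 := by
    apply mul_left_cancel₀ hg
    rw [← hβ, ← hgd, mul_one]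
  obtain ⟨N, hN⟩ : ∃ N : Submodule O M, N = LinearMap.ker α ⊓ LinearMap.ker β := ⟨_, rfl⟩
  have hNm : ∀ z, z ∈ N ↔ α z = 0 ∧ β z = 0 := fun z => by
    rw [hN, Submodule.mem_inf, LinearMap.mem_ker, LinearMap.mem_ker]
  have hπ : ∀ z, z - α z • x - β z • y ∈ N := by
    intro z
    rw [hNm]
    simp [αx, αy, βx, βy]
  let E₁ : M ≃ₗ[O] (O × O) × N :=
    { toFun := fun z => ((α z, β z), ⟨z - α z • x - β z • y, hπ z⟩)
      map_add' := fun z w => by
        ext
        · simp
        · simp
        · simp only [map_add, Prod.snd_add, Submodule.coe_add]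
          module
      map_smul' := fun c z => by
        ext
        · simp
        · simp
        · simp only [map_smul, smul_eq_mul, RingHom.id_apply, Prod.smul_snd, Submodule.coe_smul]
          module
      invFun := fun p => p.1.1 • x + p.1.2 • y + (p.2 : M)
      left_inv := fun z => by
        show α z • x + β z • y + (z - α z • x - β z • y) = z
        module
      right_inv := fun p => by
        obtain ⟨⟨a, b⟩, m, hm⟩ := p
        obtain ⟨h1, h2⟩ := (hNm m).1 hm
        have e1 : α (a • x + b • y + m) = a := by simp [αx, αy, h1]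
        have e2 : β (a • x + b • y + m) = b := by simp [βx, βy, h2]
        ext
        · exact e1
        · exact e2
        · show a • x + b • y + m - α (a • x + b • y + m) • x - β (a • x + b • y + m) • y = m
          rw [e1, e2]
          module }
  have hfr : Module.finrank O M = 2 + Module.finrank O N := by
    rw [E₁.finrank_eq, Module.finrank_prod, Module.finrank_prod, Module.finrank_self]
  obtain ⟨t, r, g', E₂, hg', hE₂⟩ := ih (Module.finrank O N) (by omega) N rfl
    ((B.domRestrict N).flip.domRestrict N).flip (fun z => hB z)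
  have hE₂' : ∀ z w : N, B z w = ∑ i, g' i * (((E₂ z).1 i).1 * ((E₂ w).1 i).2 -
      ((E₂ z).1 i).2 * ((E₂ w).1 i).1) := fun z w => hE₂ z w
  let E₃ : M ≃ₗ[O] (Fin (t + 1) → O × O) × (Fin r → O) :=
    (E₁.trans (LinearEquiv.prodCongr (LinearEquiv.refl O (O × O)) E₂)).trans
      ((LinearEquiv.prodAssoc O (O × O) (Fin t → O × O) (Fin r → O)).symm.trans
        (LinearEquiv.prodCongr (Fin.consLinearEquiv O (fun _ : Fin (t + 1) => O × O))
          (LinearEquiv.refl O (Fin r → O))))
  refine ⟨t + 1, r, Fin.cons g g', E₃, ?_, fun z w => ?_⟩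
  · intro i
    refine Fin.cases ?_ (fun i => ?_) i
    · exact hg
    · exact hg' i
  · have h0 : ∀ z, ((E₃ z).1 0) = (α z, β z) := fun z => rfl
    have h1 : ∀ z i, ((E₃ z).1 (Fin.succ i)) = (E₂ ⟨z - α z • x - β z • y, hπ z⟩).1 i :=
      fun z i => rfl
    rw [Fin.sum_univ_succ]
    simp only [h0, h1, Fin.cons_zero, Fin.cons_succ]
    rw [← hE₂']
    have e1 : B x w = g * β w := hβ w
    have e2 : B z y = g * α z := hα' z
    have e3 : B z x = -(g * β z) := by rw [hskew, hβ]
    have e4 : B y w = -(g * α w) := by rw [hskew, hα']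
    simp only [map_sub, map_smul, LinearMap.sub_apply, LinearMap.smul_apply, smul_eq_mul, hB, e1, e2,
      e3, e4, ← hgd, hskew y x]
    ring

end

/-- the normal form -/
theorem sNF : S_NF := by
  intro O _ _ _ _ k C hC hd
  have hsk : ∀ i j, C j i = -C i j := fun i j => congrFun (congrFun hC i) j
  have hB : ∀ x, Matrix.toBilin' C x x = 0 := by
    intro x
    rw [Matrix.toBilin'_apply]
    rw [← Fintype.sum_prod_type' (f := fun i j => x i * C i j * x j)]
    refine Finset.sum_involution (fun p _ => p.swap) ?_ ?_ (fun _ _ => Finset.mem_univ _)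
      (fun p _ => Prod.swap_swap p)
    · rintro ⟨i, j⟩ -
      show x i * C i j * x j + x j * C j i * x i = 0
      rw [hsk i j]
      ring
    · rintro ⟨i, j⟩ - h1 h2
      apply h1
      have : j = i := congrArg Prod.fst h2
      subst this
      show x j * C j j * x j = 0
      rw [hd, mul_zero, zero_mul]
  obtain ⟨t, r, g, E, hg, h⟩ := nf_aux k (Fin k → O) (Module.finrank_fin_fun O)
    (Matrix.toBilin' C) hB
  refine ⟨t, r, g, E, hg, fun x y => ?_⟩
  rw [← h, Matrix.toBilin'_apply']

end Pool.Agent.H11.SG
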