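import Pool.Agent.H11.SG.Dat2

/-!
# Every alternating matrix occurs
-/

set_option autoImplicit false
set_option linter.unusedSectionVars false

namespace Pool.Agent.H11.SG

open Pool.Agent.H11.FM
open Pool.Agent.Y715.Gi (QB KK GK)
open Pool.Agent.Z384
open Pool.Agent.H76.PS IsLocalRing Filter Topology
open Pool.Agent.K7
open Matrix

section algebra

variable {A : Type} [CommRing A] {k : ℕ}

/-- a vector with two blocks -/
def bl (a b : Fin k → A) : Fin (k + k) → A := Fin.addCases a b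

@[simp] lemma bl_left (a b : Fin k → A) (i : Fin k) : bl a b (Fin.castAdd k i) = a i :=
  Fin.addCases_left i

@[simp] lemma bl_right (a b : Fin k → A) (i : Fin k) : bl a b (Fin.natAdd k i) = b i :=
  Fin.addCases_right i

@[simp] lemma bl_right' (a b : Fin k → A) (i : Fin k) : bl a b (i.addNat k) = b i := by
  rw [show i.addNat k = Fin.natAdd k i from Fin.ext (Nat.add_comm _ _)]
  exact bl_right a b i

lemma bl_ext {f g : Fin (k + k) → A} (h1 : ∀ i, f (Fin.castAdd k i) = g (Fin.castAdd k i))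
    (h2 : ∀ i, f (Fin.natAdd k i) = g (Fin.natAdd k i)) : f = g := by
  funext a
  exact Fin.addCases h1 h2 a

/-- the exchange of the blocks -/
def sw (k : ℕ) : Fin (k + k) → Fin (k + k) := Fin.addCases (fun i => Fin.natAdd k i) (fun i => Fin.castAdd k i)

@[simp] lemma sw_left (i : Fin k) : sw k (Fin.castAdd k i) = Fin.natAdd k i := Fin.addCases_left i

@[simp] lemma sw_right (i : Fin k) : sw k (Fin.natAdd k i) = Fin.castAdd k i := Fin.addCases_right i

@[simp] lemma sw_right' (i : Fin k) : sw k (i.addNat k) = Fin.castAdd k i := by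
  rw [show i.addNat k = Fin.natAdd k i from Fin.ext (Nat.add_comm _ _)]
  exact sw_right i

lemma sw_sw (a : Fin (k + k)) : sw k (sw k a) = a := by
  refine Fin.addCases (fun i => ?_) (fun i => ?_) a
  · simp
  · simp

/-- the pairing -/
def Jm (A : Type) [CommRing A] (k : ℕ) : Matrix (Fin (k + k)) (Fin (k + k)) A :=
  Matrix.of fun a b => if b = sw k a then 1 else 0

lemma Jm_mulVec (y : Fin (k + k) → A) (a : Fin (k + k)) : (Jm A k *ᵥ y) a = y (sw k a) := by
  rw [mulVec, dotProduct, Finset.sum_eq_single (sw k a)]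
  · simp [Jm]
  · intro b _ hb
    simp [Jm, hb]
  · intro h
    exact absurd (Finset.mem_univ _) h

lemma Jm_symm : (Jm A k).IsSymm := by
  ext a b
  rw [transpose_apply]
  simp only [Jm, of_apply]
  congr 1
  apply propext
  constructor
  · rintro rfl
    rw [sw_sw]
  · rintro rfl
    rw [sw_sw]

lemma Jm_sq : Jm A k * Jm A k = 1 := by
  apply Matrix.ext_of_mulVec_single
  intro i
  rw [← mulVec_mulVec]
  funext a
  rw [Jm_mulVec, Jm_mulVec, sw_sw, one_mulVec]

lemma Jm_dot (x y : Fin (k + k) → A) : x ⬝ᵥ (Jm A k *ᵥ y) =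
    ∑ i, (x (Fin.castAdd k i) * y (Fin.natAdd k i) + x (Fin.natAdd k i) * y (Fin.castAdd k i)) := by
  rw [dotProduct, Fin.sum_univ_add, Finset.sum_add_distrib]
  simp only [Jm_mulVec, sw_left, sw_right]

end algebra

section rep

variable {s : QB} {A : Type} [CommRing A] [Algebra ℤ_[2] A] {χ : GK s → ℤ_[2]}

/-- the diagonal matrices -/
noncomputable def dgm (A : Type) [CommRing A] [Algebra ℤ_[2] A] (k : ℕ) (hχ : IsChar χ) :
    GK s →* Matrix (Fin (k + k)) (Fin (k + k)) A where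
  toFun σ := diagonal (bl (fun _ => 1) (fun _ => algebraMap ℤ_[2] A (χ σ)))
  map_one' := by
    rw [hχ.one, map_one]
    have : (bl (fun _ : Fin k => (1 : A)) fun _ => 1) = 1 := bl_ext (by simp) (by simp)
    rw [this]
    exact diagonal_one
  map_mul' σ τ := by
    rw [diagonal_mul_diagonal]
    congr 1
    refine (bl_ext ?_ ?_).symm
    · intro i
      simp
    · intro i
      simp [hχ.mul]

/-- the representation -/
noncomputable def rep (A : Type) [CommRing A] [Algebra ℤ_[2] A] (k : ℕ) (hχ : IsChar χ) :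
    GK s →* GL (Fin (k + k)) A := (dgm A k hχ).toHomUnits

lemma rep_coe (k : ℕ) (hχ : IsChar χ) (σ : GK s) :
    (rep A k hχ σ : Matrix (Fin (k + k)) (Fin (k + k)) A) =
      diagonal (bl (fun _ => 1) (fun _ => algebraMap ℤ_[2] A (χ σ))) := rfl

lemma rep_mulVec (k : ℕ) (hχ : IsChar χ) (σ : GK s) (v : Fin (k + k) → A) (a : Fin (k + k)) :
    ((rep A k hχ σ : Matrix (Fin (k + k)) (Fin (k + k)) A) *ᵥ v) a =
      bl (fun _ => 1) (fun _ => algebraMap ℤ_[2] A (χ σ)) a * v a := by
  rw [rep_coe, mulVec_diagonal]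

/-- the cocycles -/
noncomputable def xc {k : ℕ} (c : Matrix (Fin k) (Fin k) A) (κ φ : GK s → ℤ_[2]) (i : Fin k) (σ : GK s) :
    Fin (k + k) → A :=
  bl (fun j => if i = j then algebraMap ℤ_[2] A (φ σ) else 0)
    (fun j => c i j * algebraMap ℤ_[2] A (κ σ))

end rep

variable {s : QB}

lemma II_Nf {p : ℕ} [Fact p.Prime] {ι : QB →ₐ[ℚ] PadicAlgCl p} (hp : p ≠ 2) {σ : GK s}
    (hσ : σ ∈ (II ι : Set (GK s))) : σ ∈ Nf s := by
  rw [Nf, Subgroup.mem_sInf]
  intro N hN
  exact hN.unramified p ι hp σ hσ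

theorem realize {d : ℕ} (hs : s ^ 2 = -(d : QB)) (hF : Fld d) {χ : GK s → ℤ_[2]}
    (hχ : IsCyc χ)
    {c : QB ≃ₐ[ℚ] QB} (hc : IsConj c) {cj : GK s → GK s} (hcj : ∀ σ x, cj σ x = c (σ (c x)))
    {A : Type} [CommRing A] [IsLocalRing A] [IsNoetherianRing A] [TopologicalSpace A]
    [IsTopologicalRing A] [Algebra ℤ_[2] A] (hA : IsAdic (maximalIdeal A))
    (hfin : Finite (ResidueField A))
    (h2 : (2 : A) ∈ maximalIdeal A) (ι₀ : QB →ₐ[ℚ] PadicAlgCl 2) {k : ℕ}
    (C : Matrix (Fin k) (Fin k) A) (hC : Cᵀ = -C) (hd : ∀ i, C i i = 0) :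
    ∃ (n : ℕ) (ρ : GK s →* GL (Fin n) A) (J : Matrix (Fin n) (Fin n) A)
      (x : Fin k → GK s → Fin n → A), Rp ρ ∧ J.IsSymm ∧ IsUnit J.det ∧
      (∀ σ, (ρ σ : Matrix (Fin n) (Fin n) A)ᵀ * J * (ρ (cj σ) : Matrix _ _ A) = χ σ • J) ∧
      (∀ i, GR ρ (x i)) ∧
      ∀ (B : Type) [CommRing B] [IsLocalRing B] [IsNoetherianRing B] [TopologicalSpace B]
        [IsTopologicalRing B] [Algebra ℤ_[2] B], IsAdic (maximalIdeal B) →
        Finite (ResidueField B) → ∀ φ : A →ₐ[ℤ_[2]] B, Continuous φ →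
        (∀ (u : Fin k → B) (w : Fin n → B), (∀ δ : DDs (s := s) ι₀,
          ∑ i, u i • (fun t => φ (x i δ t)) =
            (bc φ ρ (δ : GK s) : Matrix (Fin n) (Fin n) B) *ᵥ w - w) → u = 0) ∧
        ∀ (u : Fin k → B) (v : Fin n → B), ∃ z : GK s → Fin n → B, GR (bc φ ρ) z ∧
          (∀ δ : DDs (s := s) ι₀, z δ = ∑ i, u i • (fun t => φ (x i δ t)) +
            ((bc φ ρ (δ : GK s) : Matrix (Fin n) (Fin n) B) *ᵥ v - v)) ∧
          (∀ z', GR (bc φ ρ) z' → (∀ δ : DDs (s := s) ι₀, z' δ = ∑ i, u i • (fun t => φ (x i δ t)) +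
            ((bc φ ρ (δ : GK s) : Matrix (Fin n) (Fin n) B) *ᵥ v - v)) → z' = z) ∧
          ((∀ i, OR (J.map φ) (bc φ ρ) χ cj ι₀ (fun δ t => φ (x i δ t)) z) ↔
            C.map φ *ᵥ u = 0) := by
  classical
  have hE0 : StE0 := H34.PS.stE0
  have hE1 : StE1 := H15.PS.stE1
  have hE : StE := H82.PS.stE2 stC stD H34.PS.stD3 hE0 hE1
  have hG1 : StG1 := H79.PS.stG1 H34.PS.stD3
  have hG2 : StG2 := H79.PS.stG2 hE hE0 H34.PS.stD3
  have hH : StH := H29.PS.stH hE hE0 H34.PS.stD3 hG1
  obtain ⟨κ, φ₀, hκc, hφc, hκm, hφm, hκN, hφN, hφj, hφ1, hD⟩ :=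
    exists_datN2 H57.PS.b1 stB hE0 hG1 hG2 hH stA hE hs hF hχ hc hcj
  have hcc := cj_cont hc hcj
  have hcm := cj_mul hc hcj
  have hcn : ∀ σ ∈ Nf s, cj σ ∈ Nf s := fun σ hσ => cj_Nf hc hcj hσ
  have hχj := cyc_cj hc hcj hχ
  obtain ⟨hχc, hχn⟩ := hG1 s χ hχ
  have hsk : ∀ i j, C j i = -C i j := fun i j => congrFun (congrFun hC i) j
  have hχN : ∀ σ ∈ Nf s, χ σ = 1 := fun σ hσ => by
    have := hχn 1 σ hσ
    rwa [one_mul, hχc.one] at this
  obtain ⟨c', hc'⟩ : ∃ c' : Matrix (Fin k) (Fin k) A, ∀ i j, c' i j = if i < j then C i j else 0 :=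
    ⟨fun i j => if i < j then C i j else 0, fun _ _ => rfl⟩
  have hcC : ∀ i j, c' i j - c' j i = C i j := by
    intro i j
    rw [hc', hc']
    rcases lt_trichotomy i j with h | h | h
    · rw [if_pos h, if_neg (not_lt.2 h.le), sub_zero]
    · subst h
      rw [sub_self, hd]
    · rw [if_neg (not_lt.2 h.le), if_pos h, hsk i j]
      ring
  have hal := cont_alg (A := A) hA h2
  obtain ⟨ρ, hρd⟩ : ∃ ρ : GK s →* GL (Fin (k + k)) A, ρ = rep A k hχc := ⟨_, rfl⟩
  have hρv : ∀ σ (v : Fin (k + k) → A) a, ((ρ σ : Matrix (Fin (k + k)) (Fin (k + k)) A) *ᵥ v) a =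
      bl (fun _ => 1) (fun _ => algebraMap ℤ_[2] A (χ σ)) a * v a := fun σ v a => by
    rw [hρd, rep_mulVec]
  have hρ : Rp ρ := by
    refine ⟨fun i j => ?_, fun σ => ⟨1, fun i j => ?_⟩, fun p _ ι hp σ hσ => ?_⟩
    · rw [hρd]
      simp only [rep_coe, diagonal_apply]
      by_cases h : i = j
      · simp only [h, if_true]
        refine Fin.addCases (fun a => ?_) (fun a => ?_) j
        · simp only [bl_left]
          exact continuous_const
        · simp only [bl_right]
          exact hal.comp hχc.cont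
      · simp only [h, if_false]
        exact continuous_const
    · rw [pow_one, Matrix.sub_apply, hρd, rep_coe, diagonal_apply, one_apply]
      by_cases h : i = j
      · rw [if_pos h, if_pos h]
        refine Fin.addCases (fun a => ?_) (fun a => ?_) i
        · rw [bl_left, sub_self]
          exact zero_mem _
        · rw [bl_right, ← map_one (algebraMap ℤ_[2] A), ← map_sub]
          apply alg_mem h2
          rw [map_sub, Pool.Agent.K7.H57.PS.toZMod_char hχc, map_one, sub_self]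
      · rw [if_neg h, if_neg h, sub_zero]
        exact zero_mem _
    · rw [hρd]
      apply Units.ext
      rw [rep_coe, hχN σ (II_Nf hp hσ), map_one, Units.val_one]
      have : (bl (fun _ : Fin k => (1 : A)) fun _ => 1) = 1 := bl_ext (by simp) (by simp)
      rw [this]
      exact diagonal_one
  have hJρ : ∀ σ, (ρ σ : Matrix (Fin (k + k)) (Fin (k + k)) A)ᵀ * Jm A k *
      (ρ (cj σ) : Matrix _ _ A) = χ σ • Jm A k := by
    intro σ
    ext a b
    rw [hρd, rep_coe, rep_coe, diagonal_transpose, mul_diagonal, diagonal_mul, hχj, Matrix.smul_apply,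
      Algebra.smul_def]
    by_cases h : b = sw k a
    · rw [h]
      refine Fin.addCases (fun i => ?_) (fun i => ?_) a
      · rw [sw_left, bl_left, bl_right]
        ring
      · rw [sw_right, bl_left, bl_right]
        ring
    · have : Jm A k a b = 0 := by simp [Jm, h]
      rw [this]
      ring
  obtain ⟨x, hxd⟩ : ∃ x : Fin k → GK s → Fin (k + k) → A, x = fun i => xc c' κ φ₀ i := ⟨_, rfl⟩
  have hxl : ∀ i σ j, x i σ (Fin.castAdd k j) = if i = j then algebraMap ℤ_[2] A (φ₀ σ) else 0 :=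
    fun i σ j => by rw [hxd]; exact bl_left _ _ j
  have hxr : ∀ i σ j, x i σ (Fin.natAdd k j) = c' i j * algebraMap ℤ_[2] A (κ σ) :=
    fun i σ j => by rw [hxd]; exact bl_right _ _ j
  have hx : ∀ i, GR ρ (x i) := by
    intro i
    refine ⟨fun σ τ => ?_, ?_, fun p _ ι hp σ hσ => ?_⟩
    · refine bl_ext (fun j => ?_) (fun j => ?_)
      · rw [Pi.add_apply, hρv, bl_left, hxl, hxl, hxl, hφm, map_add, one_mul]
        by_cases h : i = j
        · rw [if_pos h, if_pos h, if_pos h]
        · rw [if_neg h, if_neg h, if_neg h, add_zero]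
      · rw [Pi.add_apply, hρv, bl_right, hxr, hxr, hxr, hκm, map_add, map_mul]
        ring
    · refine continuous_pi fun a => ?_
      refine Fin.addCases (fun j => ?_) (fun j => ?_) a
      · simp only [hxl]
        by_cases h : i = j
        · simp only [h, if_true]
          exact hal.comp hφc
        · simp only [h, if_false]
          exact continuous_const
      · simp only [hxr]
        exact continuous_const.mul (hal.comp hκc)
    · refine bl_ext (fun j => ?_) (fun j => ?_)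
      · rw [hxl, hφN σ (II_Nf hp hσ), map_zero, Pi.zero_apply]
        exact ite_self _
      · rw [hxr, hκN σ (II_Nf hp hσ), map_zero, mul_zero, Pi.zero_apply]
  -- the basic relation
  have hrel : (fun g h => algebraMap ℤ_[2] A (χ g * φ₀ g * κ (cj h)) +
      algebraMap ℤ_[2] A (κ g * φ₀ h)) ∈ BN A χ := by
    have h1 : (fun g h => algebraMap ℤ_[2] A (χ g * φ₀ g * κ h) +
        algebraMap ℤ_[2] A (κ g * φ₀ h)) ∈ BN A χ := by
      refine ⟨fun g => -algebraMap ℤ_[2] A (κ g * φ₀ g), ?_, fun σ n hn => ?_, fun g h => ?_⟩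
      · exact (hal.comp (hκc.mul hφc)).neg
      · beta_reduce
        rw [hκm, hφm, hκN n hn, hφN n hn, mul_zero, add_zero, add_zero]
      · beta_reduce
        rw [hκm, hφm, Algebra.smul_def]
        simp only [map_mul, map_add]
        ring
    have h3 := BN.conj hcc hcm hcn hχj h1
    have h4 := BN.sub h3 (hD.inv A hA h2)
    refine BN.congr h4 fun g h => ?_
    beta_reduce
    rw [hχj, hφj, hφj]
    ring
  have hCx : ∀ i j, (fun g h => cpr (Jm A k) ρ cj (x i) (x j) g h -
      C i j * algebraMap ℤ_[2] A (κ g * φ₀ h)) ∈ BN A χ := by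
    intro i j
    refine BN.congr (BN.mul hrel (c' j i)) fun g h => ?_
    have e1 : cpr (Jm A k) ρ cj (x i) (x j) g h =
        algebraMap ℤ_[2] A (φ₀ g) * (algebraMap ℤ_[2] A (χ g) *
          (c' j i * algebraMap ℤ_[2] A (κ (cj h)))) +
        c' i j * algebraMap ℤ_[2] A (κ g) * algebraMap ℤ_[2] A (φ₀ h) := by
      unfold cpr
      rw [Jm_dot, Finset.sum_add_distrib]
      congr 1
      · rw [Finset.sum_eq_single i]
        · rw [hρv, bl_right, hxl, if_pos rfl, hxr, hχj]
        · intro m _ hm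
          rw [hxl, if_neg (Ne.symm hm), zero_mul]
        · intro h
          exact absurd (Finset.mem_univ _) h
      · rw [Finset.sum_eq_single j]
        · rw [hρv, bl_left, hxl, if_pos rfl, hxr, hφj, one_mul]
        · intro m _ hm
          rw [hρv, bl_left, hxl, if_neg (Ne.symm hm), mul_zero, mul_zero]
        · intro h
          exact absurd (Finset.mem_univ _) h
    rw [e1, ← hcC i j]
    simp only [map_mul]
    ring
  refine ⟨k + k, ρ, Jm A k, x, hρ, Jm_symm, ?_, hJρ, hx, ?_⟩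
  · have h1 := congrArg Matrix.det (Jm_sq (A := A) (k := k))
    rw [det_mul, det_one] at h1
    exact IsUnit.of_mul_eq_one _ h1
  intro B _ _ _ _ _ _ hB hfB φ hφ
  have h2B : (2 : B) ∈ maximalIdeal B := by
    have := map_mem hA hB hφ h2
    rwa [map_ofNat] at this
  refine ⟨fun u w huw => ?_, fun u v => ?_⟩
  · obtain ⟨r, hr, -, hrr⟩ := hE1 s d hs hF ι₀
    have hDc : IsCompact (DDs (s := s) ι₀ : Set (GK s)) := by
      rw [← hrr, MonoidHom.coe_range]
      exact isCompact_range hr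
    obtain ⟨σ, hσ⟩ := hφ1
    obtain ⟨δ, hδ, hδσ⟩ := H91.PS.surjD hDc
      (fun U hU hN g => (hE0 s d hs hF).2.2.2.2 ι₀ U hU hN g) σ
    have hφδ : φ₀ σ = φ₀ δ := by
      have e : σ = δ * (δ⁻¹ * σ) := by group
      rw [e, hφm, hφN _ hδσ, add_zero]
    have hunit : IsUnit (algebraMap ℤ_[2] B (φ₀ δ)) := by
      apply IsUnit.map
      by_contra h
      rw [← hφδ] at h
      apply hσ
      have h3 : φ₀ σ ∈ maximalIdeal ℤ_[2] := h
      rw [← PadicInt.ker_toZMod] at h3
      exact h3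
    funext j
    have h3 := congrFun (huw ⟨δ, hδ⟩) (Fin.castAdd k j)
    rw [Finset.sum_apply, Pi.sub_apply] at h3
    have h4 : ((bc φ ρ δ : Matrix (Fin (k + k)) (Fin (k + k)) B) *ᵥ w) (Fin.castAdd k j) =
        w (Fin.castAdd k j) := by
      rw [bc_apply, hρd, rep_coe, diagonal_map (map_zero φ), mulVec_diagonal]
      show φ (bl _ _ (Fin.castAdd k j)) * _ = _
      rw [bl_left, map_one, one_mul]
    rw [h4, sub_self, Finset.sum_eq_single j] at h3
    · have h5 : u j * φ (x j δ (Fin.castAdd k j)) = 0 := h3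
      rw [hxl, if_pos rfl, AlgHom.commutes] at h5
      exact (hunit.mul_left_eq_zero).1 h5
    · intro i _ hi
      show u i * φ (x i δ (Fin.castAdd k j)) = 0
      rw [hxl, if_neg hi, map_zero, mul_zero]
    · intro h
      exact absurd (Finset.mem_univ _) h
  · have hCB : ∀ i j, (fun g h => cpr ((Jm A k).map φ) (bc φ ρ) cj (fun σ t => φ (x i σ t))
        (fun σ t => φ (x j σ t)) g h -
        (C.map φ) i j * algebraMap ℤ_[2] B (κ g * φ₀ h)) ∈ BN B χ := by
      intro i j
      refine BN.congr (bc_bn hφ (hCx i j)) fun g h => ?_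
      rw [bc_cpr]
      simp only [map_sub, map_mul, Matrix.map_apply, AlgHom.commutes]
    exact kernelR hE hE0 hE1 hG1 hs hF hχ hD hcc hcm hcn hB hfB h2B
      (bc_rp hA hB hφ hρ) (bc_J φ hJρ) ι₀ (x := fun i σ t => φ (x i σ t))
      (fun i => bc_gr hφ (hx i)) hCB u v

end Pool.Agent.H11.SG
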