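import Mathlib

/-!
# Alternating matrices: statements
-/

set_option autoImplicit false

namespace Pool.Agent.H11.SG

open Matrix

/-- the determinant of an alternating matrix is a square -/
def S_PF : Prop := ∀ (A : Type) [CommRing A] (k : ℕ) (C : Matrix (Fin k) (Fin k) A),
  Cᵀ = -C → (∀ i, C i i = 0) → ∃ P : A, P ^ 2 = C.det

/-- the normal form of an alternating form over a valuation ring which is a principal ideal domain -/
def S_NF : Prop := ∀ (O : Type) [CommRing O] [IsDomain O] [IsPrincipalIdealRing O] [ValuationRing O]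
  (k : ℕ) (C : Matrix (Fin k) (Fin k) O), Cᵀ = -C → (∀ i, C i i = 0) →
  ∃ (t r : ℕ) (g : Fin t → O) (E : (Fin k → O) ≃ₗ[O] (Fin t → O × O) × (Fin r → O)),
    (∀ i, g i ≠ 0) ∧
    ∀ x y, x ⬝ᵥ (C *ᵥ y) =
      ∑ i, g i * (((E x).1 i).1 * ((E y).1 i).2 - ((E x).1 i).2 * ((E y).1 i).1)

/-- the determinant, from the normal form -/
def S_DET : Prop := ∀ (O : Type) [CommRing O] [IsDomain O]
  (k t r : ℕ) (C : Matrix (Fin k) (Fin k) O) (g : Fin t → O)
  (E : (Fin k → O) ≃ₗ[O] (Fin t → O × O) × (Fin r → O)),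
    (∀ x y, x ⬝ᵥ (C *ᵥ y) =
      ∑ i, g i * (((E x).1 i).1 * ((E y).1 i).2 - ((E x).1 i).2 * ((E y).1 i).1)) →
    (r = 0 → ∃ u : O, IsUnit u ∧ C.det = (u * ∏ i, g i) ^ 2) ∧ (r ≠ 0 → C.det = 0)

end Pool.Agent.H11.SG
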